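import Pool.Agent.Q301.UF.Fz

/-!
# A discrete space with a denumerable remainder that does not have `ℕ(∞)` as a remainder

If there is a model of ZF, then there is a model of ZF with an infinite discrete space that has a
denumerable remainder, but of which `ℕ(∞)` is not a remainder.

The model is a symmetric extension of a countable model. It has a set `D` and a sequence of
ultrafilters `C n` on `D` (in the model). Every infinite subset of `D` is in some `C n`, and every
relation between subsets of `D` and natural numbers is, up to finitely many subsets of `D`,
determined by the values of finitely many of the ultrafilters. The union of `D` and `ℕ`, where the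
neighbourhoods of `n` are given by the sets in `C n`, is a compactification of the discrete space
`D` with the remainder `ℕ` (a countable compact Hausdorff space without isolated points). A
compactification with the remainder `ℕ(∞)` would give a sequence of infinite subsets of `D` that
are pairwise almost disjoint, each of them unique up to finite sets, and there is no such sequence.
-/

namespace Pool.Agent.Results.MP_ea9bab_gt.DenumerableRemainder

open FirstOrder FirstOrder.Language
open Pool.Agent.Helper672.Plain (LSet El Mem)
open Pool.Agent.H635Amen (ZF)
open Pool.Agent.H310Cards (IsPow IsFinite)
open Pool.Agent.Q301.UF

universe u

theorem result (h : ∃ (M : Type u) (_ : LSet.Structure M), ZF M) :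
    ∃ (N : Type u) (_ : LSet.Structure N), ZF N ∧
      ∃ d t : N, IsPow t d ∧ ¬ IsFinite d ∧ (∃ y s, IsDenumerable y ∧ IsRemainder s y t d) ∧
        ∀ y s, IsNInf s y → ¬ IsRemainder s y t d :=
  pea9bab h

end Pool.Agent.Results.MP_ea9bab_gt.DenumerableRemainder
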